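import Pool.Agent.L7h49.PM.Def5
import Pool.Agent.L7h42.PM.Busb

/-!
# Project PM, part BUSQB (adapted from L7h42/PM/Busb.lean and L7h61/PM/Busq.lean)
-/

set_option autoImplicit false
set_option linter.all false

namespace Pool.Agent.L7h53.PM

open Pool.Agent.L7h49.PM
open Pool.Agent.L7h89.PM (tau tau_nonneg tau_lt tau_le)
open Pool.Agent.L7h42.PM (norm_pt_le tau_sub)

theorem tau_le9 {s : ℝ} (h0 : 0 ≤ s) (h1 : s ≤ 1) : tau s ≤ 1 / 9 := by
  unfold tau
  have h8 : (9 : ℝ) ≤ √(100 - s ^ 2) := by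
    apply Real.le_sqrt_of_sq_le
    nlinarith
  rw [div_le_iff₀ (by linarith)]
  linarith

theorem tau_ge {s : ℝ} (h0 : 1 / 2 ≤ s) (h1 : s ≤ 1) : 1 / 20 ≤ tau s := by
  unfold tau
  have h8 : √(100 - s ^ 2) ≤ 10 := by
    rw [show (10 : ℝ) = √(10 ^ 2) by rw [Real.sqrt_sq (by norm_num)]]
    apply Real.sqrt_le_sqrt
    nlinarith
  have h9 : 0 < √(100 - s ^ 2) := Real.sqrt_pos.mpr (by nlinarith)
  rw [le_div_iff₀ h9]
  linarith

theorem final {C L r : ℝ} (hC : 1 ≤ C) (hr : L / 400 < 4 * r ^ 2) (hr0 : 0 < r)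
    (h : r ≤ (4 * (12 * C + 2) + 10 * C) * Real.exp (20000 * ((12 * C + 2) ^ 2 + 1))) :
    L < Real.exp (8000000 * C ^ 2) := by
  have h1 : Real.exp (20000 * ((12 * C + 2) ^ 2 + 1)) ≤ Real.exp (3940000 * C ^ 2) := by
    apply Real.exp_le_exp.mpr
    nlinarith
  have h2 : r ≤ 66 * C * Real.exp (3940000 * C ^ 2) := by
    refine h.trans (mul_le_mul ?_ h1 (Real.exp_pos _).le (by positivity))
    linarith
  have h3 : r ^ 2 ≤ (66 * C * Real.exp (3940000 * C ^ 2)) ^ 2 := by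
    exact pow_le_pow_left₀ hr0.le h2 2
  have h4 : Real.exp (8000000 * C ^ 2) =
      Real.exp (120000 * C ^ 2) * Real.exp (3940000 * C ^ 2) ^ 2 := by
    rw [← Real.exp_nat_mul, ← Real.exp_add]
    congr 1
    push_cast
    ring
  have h5 : 7000000 * C ^ 2 ≤ Real.exp (120000 * C ^ 2) := by
    have h50 : 60000 * C ^ 2 + 1 ≤ Real.exp (60000 * C ^ 2) := Real.add_one_le_exp _
    have h51 : Real.exp (120000 * C ^ 2) = Real.exp (60000 * C ^ 2) ^ 2 := by
      rw [← Real.exp_nat_mul]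
      congr 1
      push_cast
      ring
    rw [h51]
    have h52 : (60000 * C ^ 2) ^ 2 ≤ Real.exp (60000 * C ^ 2) ^ 2 :=
      pow_le_pow_left₀ (by positivity) (by linarith) 2
    have h53 : 1 ≤ C ^ 2 := by nlinarith
    nlinarith
  rw [h4]
  have h6 : 0 < Real.exp (3940000 * C ^ 2) ^ 2 := by positivity
  calc L < 1600 * r ^ 2 := by linarith
    _ ≤ 1600 * (66 * C * Real.exp (3940000 * C ^ 2)) ^ 2 := by linarith
    _ = (6969600 * C ^ 2) * Real.exp (3940000 * C ^ 2) ^ 2 := by ring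
    _ ≤ (7000000 * C ^ 2) * Real.exp (3940000 * C ^ 2) ^ 2 := by
        apply mul_le_mul_of_nonneg_right _ h6.le
        nlinarith [sq_nonneg C]
    _ ≤ _ := mul_le_mul_of_nonneg_right h5 h6.le

theorem big {C L : ℝ} (hC : 1 ≤ C) (h : Real.exp (8000000 * C ^ 2) ≤ L) :
    4000000 * C ^ 2 ≤ L := by
  have := Real.add_one_le_exp (8000000 * C ^ 2)
  nlinarith [sq_nonneg C]

theorem s_BUSQB (h2 : S_LIM) (h3 : S_DISCF) : S_BUSQB := by
  intro V G f C L hR hexp
  by_contra hcon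
  have hmonge : ∀ (y0 y1 t0 t1 : ℝ) (a b c d : V), 0 ≤ y0 → y0 + 200 * C ≤ y1 →
      y1 ≤ L / 1000 → L / 20 ≤ t0 → t0 + 200 * C ≤ t1 → t1 ≤ L / 9 →
      ‖f a - pt 0 y0‖ ≤ C → ‖f b - pt 0 y1‖ ≤ C → ‖f c - pt L t1‖ ≤ C → ‖f d - pt L t0‖ ≤ C →
      G.dist a d + G.dist b c ≤ G.dist a c + G.dist b d := by
    intro y0 y1 t0 t1 a b c d k2 k3 k4 k5 k6 k7 k8 k9 k10 k11
    by_contra hlt
    exact hcon ⟨y0, y1, t0, t1, a, b, c, d, k2, k3, k4, k5, k6, k7, k8, k9, k10, k11,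
      not_le.1 hlt⟩
  have hC := hR.one
  have hC2 : C ≤ C ^ 2 := by nlinarith
  have hL := big hC hexp
  have hL400 : 1 ≤ L / 400 := by
    rw [le_div_iff₀ (by norm_num)]
    nlinarith
  have hLpos : 0 < L := by linarith
  obtain ⟨R, hR1, hR2⟩ := exists_nat_pow_near hL400 (by norm_num : (1 : ℝ) < 4)
  set T : ℝ := 2 ^ R with hT
  have hTpos : 0 < T := by positivity
  have hT1 : 1 ≤ T := one_le_pow₀ (by norm_num)
  have hT2 : T ^ 2 = 4 ^ R := by
    rw [hT, ← pow_mul, mul_comm R 2, pow_mul]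
    norm_num
  have hTL : T ^ 2 ≤ L / 400 := by rw [hT2]; exact hR1
  have hTL2 : L / 400 < 4 * T ^ 2 := by
    rw [hT2]
    rw [pow_succ] at hR2
    linarith
  set H : ℝ := 200 * C with hH
  have hL6 : 4000000 ≤ L := by nlinarith
  have hy : ∀ n : ℕ, (n : ℝ) * (10 * C) ≤ T → ((n : ℝ) * H) ^ 2 ≤ L ∧ (n : ℝ) * H ≤ L / 1000 := by
    intro n hn
    have e1 : (n : ℝ) * H ≤ 20 * T := by
      rw [hH]
      linarith
    have e0 : 0 ≤ (n : ℝ) * H := by positivity
    have e2 : ((n : ℝ) * H) ^ 2 ≤ (20 * T) ^ 2 := pow_le_pow_left₀ e0 e1 2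
    have e3 : ((n : ℝ) * H) ^ 2 ≤ L := by nlinarith
    refine ⟨e3, ?_⟩
    by_contra h
    rw [not_le] at h
    have e4 : (L / 1000) ^ 2 < ((n : ℝ) * H) ^ 2 := pow_lt_pow_left₀ h (by positivity) (by norm_num)
    nlinarith
  have hne : Nonempty V := hR.conn.nonempty
  have hx : ∀ n : ℕ, ∃ x, (n : ℝ) * (10 * C) ≤ T → ‖f x - pt 0 (n * H)‖ < C := by
    intro n
    by_cases hn : (n : ℝ) * (10 * C) ≤ T
    · obtain ⟨x, hx⟩ := hR.net (pt 0 (n * H)) (by
        refine (norm_pt_le _ _).trans ?_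
        rw [abs_zero, abs_of_nonneg (by positivity)]
        linarith [(hy n hn).2])
      exact ⟨x, fun _ => hx⟩
    · exact ⟨Classical.arbitrary V, fun h => absurd h hn⟩
  choose x hx using hx
  -- the parameter in [1/2, 1]
  set σ : ℕ → ℝ := fun j => (1 + (j : ℝ) / T) / 2 with hσ
  have hj : ∀ j : ℕ, j ≤ 2 ^ R → 1 / 2 ≤ σ j ∧ σ j ≤ 1 := by
    intro j hj
    have a1 : 0 ≤ (j : ℝ) / T := by positivity
    have a2 : (j : ℝ) / T ≤ 1 := by
      rw [div_le_one hTpos, hT]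
      exact_mod_cast hj
    simp only [hσ]
    constructor <;> linarith
  have hz : ∀ j : ℕ, ∃ z, j ≤ 2 ^ R → ‖f z - pt L (tau (σ j) * L)‖ < C := by
    intro j
    by_cases hjj : j ≤ 2 ^ R
    · obtain ⟨a1, a2⟩ := hj j hjj
      have b1 := tau_nonneg (s := σ j) (by linarith)
      have b2 := tau_le9 (s := σ j) (by linarith) a2
      obtain ⟨z, hz⟩ := hR.net (pt L (tau (σ j) * L)) (by
        refine (norm_pt_le _ _).trans ?_
        rw [abs_of_nonneg hLpos.le, abs_of_nonneg (by positivity)]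
        nlinarith)
      exact ⟨z, fun _ => hz⟩
    · exact ⟨Classical.arbitrary V, fun h => absurd h hjj⟩
  choose z hz using hz
  have hbd : ∀ n j : ℕ, (n : ℝ) * (10 * C) ≤ T → j ≤ 2 ^ R →
      |((G.dist (x 0) (z j) : ℝ) - G.dist (x n) (z j)) - n * H * σ j / 10| ≤ 6 * C + 1 := by
    intro n j hn hjj
    obtain ⟨hs0, hs1⟩ := hj j hjj
    obtain ⟨hy1, hy2⟩ := hy n hn
    have hn0 : 0 ≤ (n : ℝ) * H := by positivity
    have hlim := h2 (n * H) (σ j) L hn0 (by linarith) hs1 hLpos (by linarith)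
    have hle : (n * H) ^ 2 / L ≤ 1 := by
      rw [div_le_one hLpos]
      exact hy1
    have hn1 := hR.near (x 0) (z j)
    have hn2 := hR.near (x n) (z j)
    have hx0 := hx 0 (by simp; positivity)
    have hxn := hx n hn
    have hzz := hz j hjj
    have e0 : ((0 : ℕ) : ℝ) * H = 0 := by simp
    rw [e0] at hx0
    have ht : tau (σ j) * L = (σ j) / √(100 - (σ j) ^ 2) * L := rfl
    rw [ht] at hzz
    set s := σ j with hs
    set P0 := pt 0 0
    set Pn := pt 0 (n * H)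
    set PL := pt L (s / √(100 - s ^ 2) * L)
    have d1 : |‖f (x 0) - f (z j)‖ - ‖P0 - PL‖| ≤ ‖f (x 0) - P0‖ + ‖f (z j) - PL‖ := by
      calc |‖f (x 0) - f (z j)‖ - ‖P0 - PL‖| ≤ ‖(f (x 0) - f (z j)) - (P0 - PL)‖ :=
            abs_norm_sub_norm_le _ _
        _ = ‖(f (x 0) - P0) - (f (z j) - PL)‖ := by congr 1; abel
        _ ≤ _ := norm_sub_le _ _
    have d2 : |‖f (x n) - f (z j)‖ - ‖Pn - PL‖| ≤ ‖f (x n) - Pn‖ + ‖f (z j) - PL‖ := by
      calc |‖f (x n) - f (z j)‖ - ‖Pn - PL‖| ≤ ‖(f (x n) - f (z j)) - (Pn - PL)‖ :=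
            abs_norm_sub_norm_le _ _
        _ = ‖(f (x n) - Pn) - (f (z j) - PL)‖ := by congr 1; abel
        _ ≤ _ := norm_sub_le _ _
    rw [abs_le] at hlim d1 d2 ⊢
    rw [abs_lt] at hn1 hn2
    constructor
    · linarith [hlim.1, hlim.2, hn1.1, hn1.2, hn2.1, hn2.2, d1.1, d1.2, d2.1, d2.2]
    · linarith [hlim.1, hlim.2, hn1.1, hn1.2, hn2.1, hn2.2, d1.1, d1.2, d2.1, d2.2]
  have key := h3 R (fun n j => ((G.dist (x 0) (z j) : ℤ) - G.dist (x n) (z j)) -
    ((G.dist (x 0) (z 0) : ℤ) - G.dist (x n) (z 0))) (10 * C) (12 * C + 2)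
    (by linarith) ?_ ?_
  · exact absurd hexp (not_le.2 (final hC hTL2 hTpos key))
  · intro n j hn hjj
    rw [← hT] at hn ⊢
    have k1 := hbd n j hn hjj
    have k2 := hbd n 0 hn (Nat.zero_le _)
    have e1 : (n : ℝ) * H * σ j / 10 - n * H * σ 0 / 10 = n * (10 * C) * ((j : ℝ) / T) := by
      simp only [hσ, hH, Nat.cast_zero, zero_div]
      ring
    rw [abs_le] at k1 k2 ⊢
    push_cast
    rw [← e1]
    constructor
    · linarith [k1.1, k1.2, k2.1, k2.2]
    · linarith [k1.1, k1.2, k2.1, k2.2]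
  · intro m n i j hmn hn hij hjj
    rw [← hT] at hn
    rcases hmn.eq_or_lt with rfl | hmn
    · exact le_of_eq (by ring)
    rcases hij.eq_or_lt with rfl | hij
    · exact le_rfl
    have hmn' : (m : ℝ) + 1 ≤ n := by exact_mod_cast hmn
    have hm : (m : ℝ) * (10 * C) ≤ T := by
      refine le_trans ?_ hn
      apply mul_le_mul_of_nonneg_right _ (by positivity)
      linarith
    have hii : i ≤ 2 ^ R := hij.le.trans hjj
    obtain ⟨a1, a2⟩ := hj i hii
    obtain ⟨b1, b2⟩ := hj j hjj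
    have hst0 : (i : ℝ) / T + 1 / T ≤ (j : ℝ) / T := by
      rw [← add_div]
      apply div_le_div_of_nonneg_right _ hTpos.le
      exact_mod_cast hij
    have hT' : 0 < 1 / T := by positivity
    have hst : σ i + 1 / T / 2 ≤ σ j := by
      simp only [hσ]
      linarith
    have hts := tau_sub (s := σ i) (t := σ j) (by linarith) (by linarith) b2
    have hTT : 200 * C ≤ (1 / T) / 20 * L := by
      have e1 : (1 / T) / 20 * L = L / (20 * T) := by
        field_simp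
      rw [e1, le_div_iff₀ (by positivity)]
      have e2 : (200 * C * (20 * T)) ^ 2 ≤ L ^ 2 := by
        have : (200 * C * (20 * T)) ^ 2 = (40000 * C ^ 2) * (400 * T ^ 2) := by ring
        rw [this, sq L]
        exact mul_le_mul (by nlinarith) (by linarith) (by positivity) hLpos.le
      exact (pow_le_pow_iff_left₀ (by positivity) hLpos.le (by norm_num)).mp e2
    have hn0 : 0 ≤ (n : ℝ) * H := by positivity
    have hm0 : 0 ≤ (m : ℝ) * H := by positivity
    have hmon := hmonge (m * H) (n * H) (tau (σ i) * L) (tau (σ j) * L) (x m) (x n) (z j) (z i)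
      hm0
      (by
        have : ((m : ℝ) + 1) * H ≤ n * H := mul_le_mul_of_nonneg_right hmn' (by positivity)
        rw [hH] at *
        linarith)
      (hy n hn).2
      (by
        have := mul_le_mul_of_nonneg_right (tau_ge a1 a2) hLpos.le
        linarith)
      (by
        have h5 : (1 / T) / 20 ≤ tau (σ j) - tau (σ i) := by linarith
        have h6 := mul_le_mul_of_nonneg_right h5 hLpos.le
        linarith)
      (by
        have := mul_le_mul_of_nonneg_right (tau_le9 (s := σ j) (by linarith) b2) hLpos.le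
        linarith)
      (hx m hm).le (hx n hn).le (hz j hjj).le (hz i hii).le
    have hmon' : (G.dist (x m) (z i) : ℤ) + G.dist (x n) (z j)
        ≤ G.dist (x m) (z j) + G.dist (x n) (z i) := by exact_mod_cast hmon
    show ((G.dist (x 0) (z i) : ℤ) - G.dist (x n) (z i)) -
      ((G.dist (x 0) (z 0) : ℤ) - G.dist (x n) (z 0)) -
      (((G.dist (x 0) (z i) : ℤ) - G.dist (x m) (z i)) -
      ((G.dist (x 0) (z 0) : ℤ) - G.dist (x m) (z 0))) ≤
      ((G.dist (x 0) (z j) : ℤ) - G.dist (x n) (z j)) -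
      ((G.dist (x 0) (z 0) : ℤ) - G.dist (x n) (z 0)) -
      (((G.dist (x 0) (z j) : ℤ) - G.dist (x m) (z j)) -
      ((G.dist (x 0) (z 0) : ℤ) - G.dist (x m) (z 0)))
    linarith

end Pool.Agent.L7h53.PM
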